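import Pool.Agent.Lib.MP_46bd4a_lc.Final

open SelGamma

/-- There is `g : ℕ → ℕ`, `g n → ∞`, `g n ≥ 1` for all `n`, such that the principles
`S₁(Γ_g, O)` and `S₁(Γ_g, Fin-Λ)` are not equivalent: some Hausdorff space has the first property
but not the second. -/
theorem Pool.Agent.Results.MP_46bd4a_lc.NotEquivalent.result :
    ∃ g : ℕ → ℕ, (∀ n, 1 ≤ g n) ∧ Filter.Tendsto g Filter.atTop Filter.atTop ∧
      ∃ (X : Type) (_ : TopologicalSpace X), T2Space X ∧
        S1 (GammaCovers X g) (OpenCovers X) ∧ ¬ S1 (GammaCovers X g) (LargeCovers X) :=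
  main
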